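import Pool.Agent.Y553.PL.Stm

/-! Job PL-EXISO: isomorphic neighbourhoods in the example (helper901), adaptation of the
corresponding part of the starting file PlusNotLocal. -/

set_option autoImplicit false

namespace Pool.Agent.Y901.PL

open Pool.Agent.Results.MP_abe753_lc.PlusNotLocal (ball NbhdIso ColouredGraph)
open Pool.Agent.Y553.PL

variable {q L : ℕ}

theorem ex_adj {x y : Vt q L} : (ex q L).graph.Adj x y ↔ (Er x y ∨ Er y x) := Iff.rfl

theorem ex_walk {x y : Vt q L} (w : (ex q L).graph.Walk x y) :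
    ∀ (β : Bool) (i : Fin L), x = .s (β, i) →
      ∃ j : Fin L, y = .s (β, j) ∧ j.val ≤ i.val + w.length := by
  induction w with
  | nil =>
    intro β i hx
    exact ⟨i, hx, by simp⟩
  | @cons u v z hadj w ih =>
    intro β i hx
    subst hx
    have hv : ∃ j : Fin L, v = .s (β, j) ∧ j.val ≤ i.val + 1 := by
      rcases ex_adj.1 hadj with h | h
      · cases v with
        | s p =>
          obtain ⟨β', j⟩ := p
          obtain ⟨h1, h2⟩ := h
          simp only at h1 h2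
          exact ⟨j, by rw [h1], by omega⟩
        | a p => exact h.elim
        | b p => exact h.elim
        | d p q => exact h.elim
        | w g => exact h.elim
      · cases v with
        | s p =>
          obtain ⟨β', j⟩ := p
          obtain ⟨h1, h2⟩ := h
          simp only at h1 h2
          exact ⟨j, by rw [h1], by omega⟩
        | a p => exact h.elim
        | b p => exact h.elim
        | d p q => exact h.elim
        | w g => exact h.elim
    obtain ⟨j, hj, hji⟩ := hv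
    obtain ⟨l, hl, hlj⟩ := ih β j hj
    refine ⟨l, hl, ?_⟩
    rw [SimpleGraph.Walk.length_cons]
    omega

theorem ex_walk' (β : Bool) (i0 : Fin L) (hi0 : i0.val = 0) : ∀ n (hn : n < L),
    ∃ w : (ex q L).graph.Walk (.s (β, i0)) (.s (β, ⟨n, hn⟩)), w.length ≤ n := by
  intro n
  induction n with
  | zero =>
    intro hn
    have h : i0 = ⟨0, hn⟩ := Fin.ext hi0
    subst h
    exact ⟨SimpleGraph.Walk.nil, le_refl _⟩
  | succ n ih =>
    intro hn
    obtain ⟨w, hw⟩ := ih (by omega)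
    have hadj : (ex q L).graph.Adj (.s (β, ⟨n, by omega⟩)) (.s (β, ⟨n + 1, hn⟩)) :=
      ex_adj.2 (Or.inl ⟨rfl, rfl⟩)
    refine ⟨w.concat hadj, ?_⟩
    rw [SimpleGraph.Walk.length_concat]
    omega

theorem ex_ball {r : ℕ} (β : Bool) (i0 : Fin L) (hi0 : i0.val = 0) (x : Vt q L) :
    x ∈ ball (ex q L) r (fun _ : Fin 1 => .s (β, i0)) ↔
      ∃ j : Fin L, j.val ≤ r ∧ x = .s (β, j) := by
  constructor
  · rintro ⟨_, w, hw⟩
    obtain ⟨j, hj, hjw⟩ := ex_walk w β i0 rfl
    exact ⟨j, by omega, hj⟩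
  · rintro ⟨j, hj, rfl⟩
    obtain ⟨w, hw⟩ := ex_walk' (q := q) β i0 hi0 j.val j.isLt
    exact ⟨0, w, by omega⟩

/-- Exchange the two paths. -/
def flip : Vt q L → Vt q L
  | .s p => .s (!p.1, p.2)
  | x => x

theorem col (c : Fin 16) (j : Fin L) (hj : j.val + 1 ≠ L) :
    (Vt.s (true, j) : Vt q L) ∈ (ex q L).colour c ↔
      (Vt.s (false, j) : Vt q L) ∈ (ex q L).colour c := by
  fin_cases c <;> simp [ex, hj]

theorem t_EXISO : St_EXISO := by
  intro q L r hrL i0 hi0
  have m1 : ∀ x : ball (ex q L) r (fun _ : Fin 1 => (.s (true, i0) : Vt q L)),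
      flip (x : Vt q L) ∈ ball (ex q L) r (fun _ : Fin 1 => (.s (false, i0) : Vt q L)) := by
    rintro ⟨x, hx⟩
    obtain ⟨j, hj, rfl⟩ := (ex_ball true i0 hi0 x).1 hx
    exact (ex_ball false i0 hi0 _).2 ⟨j, hj, rfl⟩
  have m2 : ∀ x : ball (ex q L) r (fun _ : Fin 1 => (.s (false, i0) : Vt q L)),
      flip (x : Vt q L) ∈ ball (ex q L) r (fun _ : Fin 1 => (.s (true, i0) : Vt q L)) := by
    rintro ⟨x, hx⟩
    obtain ⟨j, hj, rfl⟩ := (ex_ball false i0 hi0 x).1 hx
    exact (ex_ball true i0 hi0 _).2 ⟨j, hj, rfl⟩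
  have ff : ∀ x : Vt q L, flip (flip x) = x := by
    intro x
    cases x <;> simp [flip]
  refine ⟨⟨fun x => ⟨flip x, m1 x⟩, fun x => ⟨flip x, m2 x⟩, fun x => Subtype.ext (ff x),
    fun x => Subtype.ext (ff x)⟩, ?_, ?_, ?_⟩
  · rintro ⟨x, hx⟩ ⟨y, hy⟩
    obtain ⟨i, hi, rfl⟩ := (ex_ball true i0 hi0 x).1 hx
    obtain ⟨j, hj, rfl⟩ := (ex_ball true i0 hi0 y).1 hy
    simp [ex_adj, flip, Er]
  · rintro i ⟨x, hx⟩
    obtain ⟨j, hj, rfl⟩ := (ex_ball true i0 hi0 x).1 hx
    exact col i j (by omega)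
  · intro i h
    rfl

end Pool.Agent.Y901.PL
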